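import Mathlib
import Pool.Agent.Bondage.Search

/-!
# A planar graph with bondage number `Δ + 2`

The truncated octahedron (the Cayley graph of `S₄` with respect to the three adjacent
transpositions) is a connected bipartite cubic planar graph with domination number `8` and
bondage number `5`.
-/

set_option autoImplicit false

namespace Pool.Agent.Results.MP_4d2e6e_co.TruncatedOctahedron

open Finset

/-- `D` is a dominating set of `G` -/
def IsDominating {V : Type} (G : SimpleGraph V) (D : Finset V) : Prop :=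
  ∀ v, v ∉ D → ∃ u ∈ D, G.Adj u v

/-- the domination number: the minimum size of a dominating set -/
noncomputable def dominationNumber {V : Type} (G : SimpleGraph V) : ℕ :=
  sInf {k : ℕ | ∃ D : Finset V, IsDominating G D ∧ D.card = k}

/-- the bondage number: the minimum size of a set of edges whose removal increases the
domination number -/
noncomputable def bondageNumber {V : Type} (G : SimpleGraph V) : ℕ :=
  sInf {k : ℕ | ∃ X : Finset (Sym2 V), (X : Set (Sym2 V)) ⊆ G.edgeSet ∧ X.card = k ∧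
    dominationNumber G < dominationNumber (G.deleteEdges (X : Set (Sym2 V)))}

/-- `p` is a drawing of `G` in the plane with straight edges without crossings: different vertices
are different points, a vertex on an edge is one of its ends, and a common point of two different
edges is a common end -/
def PlaneDrawing {V : Type} (G : SimpleGraph V) (p : V → ℝ × ℝ) : Prop :=
  Function.Injective p ∧
  (∀ u v w, G.Adj u v → p w ∈ segment ℝ (p u) (p v) → w = u ∨ w = v) ∧
  ∀ u v x y, G.Adj u v → G.Adj x y → s(u, v) ≠ s(x, y) →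
    ∀ P, P ∈ segment ℝ (p u) (p v) → P ∈ segment ℝ (p x) (p y) →
      ∃ w, p w = P ∧ (w = u ∨ w = v) ∧ (w = x ∨ w = y)

/-- the Cayley graph of the symmetric group of degree `4` with respect to the three adjacent
transpositions, i.e. the graph of the truncated octahedron -/
def truncatedOctahedron : SimpleGraph (Equiv.Perm (Fin 4)) where
  Adj σ τ := ∃ i : Fin 3, τ = σ * Equiv.swap i.castSucc i.succ
  symm := ⟨by
    rintro σ τ ⟨i, rfl⟩
    refine ⟨i, ?_⟩
    rw [mul_assoc, Equiv.swap_mul_self, mul_one]⟩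
  loopless := ⟨by
    rintro σ ⟨i, hi⟩
    have h1 : Equiv.swap i.castSucc i.succ = 1 := by
      have := congrArg (fun g => σ⁻¹ * g) hi
      simp only [inv_mul_cancel_left, inv_mul_cancel] at this
      exact this.symm
    have h2 : Equiv.swap i.castSucc i.succ i.castSucc = i.succ := Equiv.swap_apply_left _ _
    rw [h1, Equiv.Perm.one_apply] at h2
    exact absurd (congrArg Fin.val h2) (by simp)⟩

/-! ### the isomorphism -/

/-- words in the generators -/
def word : Fin 24 → List (Fin 3) :=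
  ![[], [1, 2, 1], [1, 2, 0, 1], [1, 0, 1], [0, 2, 1, 0], [0, 2, 1, 0, 2], [0, 2, 1, 2],
    [0, 2, 1], [1], [1, 2], [1, 2, 0], [1, 0], [1, 0, 1, 2], [0], [2, 1], [1, 2, 1, 0, 1],
    [2, 1, 0], [1, 2, 1, 0, 1, 2], [0, 1, 2], [0, 2], [1, 2, 0, 1, 2], [0, 1], [2],
    [1, 2, 1, 0]]

def phi (v : Fin 24) : Equiv.Perm (Fin 4) :=
  (word v).foldl (fun σ i => σ * Equiv.swap i.castSucc i.succ) 1

theorem phi_inj : Function.Injective phi := by
  have h : ∀ u v : Fin 24, phi u = phi v → u = v := by decide +kernel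
  exact fun u v => h u v

theorem phi_adj : ∀ u v : Fin 24, (∃ i : Fin 3, phi v = phi u * Equiv.swap i.castSucc i.succ) ↔
    Pool.Agent.Bondage.G.Adj u v := by
  decide +kernel

noncomputable def phiEquiv : Fin 24 ≃ Equiv.Perm (Fin 4) :=
  Equiv.ofBijective phi ((Fintype.bijective_iff_injective_and_card _).mpr ⟨phi_inj, by
    simp [Fintype.card_perm, Nat.factorial]⟩)

noncomputable def phiIso : Pool.Agent.Bondage.G ≃g truncatedOctahedron where
  toEquiv := phiEquiv
  map_rel_iff' := by
    intro u v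
    exact phi_adj u v

/-! ### the drawing -/

def px : Fin 24 → ℤ :=
  ![12, -12, -2, 2, -1, -1, 1, 2, 5, -7, -3, 1, 1, 7, -5, -4, -4, -2, 2, 5, -1, 4, 7, -7]

def py : Fin 24 → ℤ :=
  ![1, -1, 3, 3, -3, -2, -2, -3, 11, 10, 6, 7, 2, -1, -11, 0, -6, 0, 0, -5, 1, 1, -10, -2]

/-- twice the signed area of the triangle `u v w` -/
def cr (u v w : Fin 24) : ℤ :=
  (px v - px u) * (py w - py u) - (py v - py u) * (px w - px u)

/-- certificate that the two edges `u v` and `x y` meet in at most one common end -/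
def Good (u v x y : Fin 24) : Prop :=
  (0 < cr u v x ∧ 0 < cr u v y) ∨ (cr u v x < 0 ∧ cr u v y < 0) ∨
  (0 < cr x y u ∧ 0 < cr x y v) ∨ (cr x y u < 0 ∧ cr x y v < 0) ∨
  ((u = x ∨ v = x) ∧ cr u v y ≠ 0) ∨ ((u = y ∨ v = y) ∧ cr u v x ≠ 0)

instance (u v x y : Fin 24) : Decidable (Good u v x y) := by
  unfold Good
  infer_instance

theorem good_edges : ∀ e e' : Fin 36, e ≠ e' →
    Good (Pool.Agent.Bondage.s e) (Pool.Agent.Bondage.t e) (Pool.Agent.Bondage.s e')
      (Pool.Agent.Bondage.t e') := by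
  decide +kernel

def pt (v : Fin 24) : ℝ × ℝ := ((px v : ℝ), (py v : ℝ))

theorem pt_inj : Function.Injective pt := by
  have h : ∀ u v : Fin 24, px u = px v → py u = py v → u = v := by decide +kernel
  intro u v huv
  have h1 := congrArg Prod.fst huv
  have h2 := congrArg Prod.snd huv
  simp only [pt] at h1 h2
  exact h u v (by exact_mod_cast h1) (by exact_mod_cast h2)

/-- an affine form vanishing on the line through `u` and `v` -/
theorem form_zero (u v x y : Fin 24) (P : ℝ × ℝ) (h1 : P ∈ segment ℝ (pt u) (pt v))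
    (h2 : P ∈ segment ℝ (pt x) (pt y)) : ∃ a b : ℝ, 0 ≤ a ∧ 0 ≤ b ∧ a + b = 1 ∧
      a • pt x + b • pt y = P ∧ a * (cr u v x : ℝ) + b * (cr u v y : ℝ) = 0 := by
  obtain ⟨a', b', _, _, hab', hP'⟩ := h1
  obtain ⟨a, b, ha, hb, hab, hP⟩ := h2
  refine ⟨a, b, ha, hb, hab, hP, ?_⟩
  rw [← hP'] at hP
  have e1 := congrArg Prod.fst hP
  have e2 := congrArg Prod.snd hP
  simp only [pt, Prod.smul_mk, Prod.mk_add_mk, smul_eq_mul] at e1 e2
  have hb1 : b = 1 - a := by linarith
  have hb2 : b' = 1 - a' := by linarith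
  subst hb1
  subst hb2
  simp only [cr]
  push_cast
  linear_combination ((px v : ℝ) - px u) * e2 - ((py v : ℝ) - py u) * e1

theorem meet_of_good (u v x y : Fin 24) (hg : Good u v x y) (P : ℝ × ℝ)
    (h1 : P ∈ segment ℝ (pt u) (pt v)) (h2 : P ∈ segment ℝ (pt x) (pt y)) :
    ∃ w, pt w = P ∧ (w = u ∨ w = v) ∧ (w = x ∨ w = y) := by
  obtain ⟨a, b, ha, hb, hab, hP, hz⟩ := form_zero u v x y P h1 h2
  obtain ⟨c, d, hc, hd, hcd, -, hz'⟩ := form_zero x y u v P h2 h1
  have hcase : 0 < a ∨ 0 < b := by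
    by_contra hcon
    push Not at hcon
    linarith
  have hcase' : 0 < c ∨ 0 < d := by
    by_contra hcon
    push Not at hcon
    linarith
  have pos : ∀ (m n : ℝ) (i j : ℤ), 0 ≤ m → 0 ≤ n → (0 < m ∨ 0 < n) → 0 < i → 0 < j →
      m * (i : ℝ) + n * (j : ℝ) = 0 → False := by
    intro m n i j hm hn hmn hi hj h
    have hi' : (0 : ℝ) < i := by exact_mod_cast hi
    have hj' : (0 : ℝ) < j := by exact_mod_cast hj
    rcases hmn with h0 | h0
    · have := mul_pos h0 hi'
      have := mul_nonneg hn hj'.le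
      linarith
    · have := mul_pos h0 hj'
      have := mul_nonneg hm hi'.le
      linarith
  have neg : ∀ (m n : ℝ) (i j : ℤ), 0 ≤ m → 0 ≤ n → (0 < m ∨ 0 < n) → i < 0 → j < 0 →
      m * (i : ℝ) + n * (j : ℝ) = 0 → False := by
    intro m n i j hm hn hmn hi hj h
    refine pos m n (-i) (-j) hm hn hmn (by omega) (by omega) ?_
    push_cast
    linarith
  rcases hg with ⟨g1, g2⟩ | ⟨g1, g2⟩ | ⟨g1, g2⟩ | ⟨g1, g2⟩ | ⟨g1, g2⟩ | ⟨g1, g2⟩
  · exact (pos a b _ _ ha hb hcase g1 g2 hz).elim
  · exact (neg a b _ _ ha hb hcase g1 g2 hz).elim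
  · exact (pos c d _ _ hc hd hcase' g1 g2 hz').elim
  · exact (neg c d _ _ hc hd hcase' g1 g2 hz').elim
  · have hx : cr u v x = 0 := by
      rcases g1 with rfl | rfl
      · simp only [cr]
        ring
      · simp only [cr]
        ring
    have hb0 : b = 0 := by
      rw [hx] at hz
      have : b * (cr u v y : ℝ) = 0 := by simpa using hz
      rcases mul_eq_zero.mp this with h | h
      · exact h
      · exact absurd (by exact_mod_cast h) g2
    have ha1 : a = 1 := by linarith
    refine ⟨x, ?_, ?_, Or.inl rfl⟩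
    · rw [← hP, hb0, ha1]
      simp
    · exact g1.imp Eq.symm Eq.symm
  · have hy : cr u v y = 0 := by
      rcases g1 with rfl | rfl
      · simp only [cr]
        ring
      · simp only [cr]
        ring
    have ha0 : a = 0 := by
      rw [hy] at hz
      have : a * (cr u v x : ℝ) = 0 := by simpa using hz
      rcases mul_eq_zero.mp this with h | h
      · exact h
      · exact absurd (by exact_mod_cast h) g2
    have hb1 : b = 1 := by linarith
    refine ⟨y, ?_, ?_, Or.inr rfl⟩
    · rw [← hP, ha0, hb1]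
      simp
    · exact g1.imp Eq.symm Eq.symm

theorem meet_edges (u v x y : Fin 24) (h1 : Pool.Agent.Bondage.G.Adj u v)
    (h2 : Pool.Agent.Bondage.G.Adj x y) (hne : s(u, v) ≠ s(x, y)) (P : ℝ × ℝ)
    (hP1 : P ∈ segment ℝ (pt u) (pt v)) (hP2 : P ∈ segment ℝ (pt x) (pt y)) :
    ∃ w, pt w = P ∧ (w = u ∨ w = v) ∧ (w = x ∨ w = y) := by
  obtain ⟨e, he⟩ := Pool.Agent.Bondage.adj_edge u v h1
  obtain ⟨e', he'⟩ := Pool.Agent.Bondage.adj_edge x y h2
  have hee : e ≠ e' := by
    rintro rfl
    apply hne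
    rcases he with ⟨a1, a2⟩ | ⟨a1, a2⟩ <;> rcases he' with ⟨b1, b2⟩ | ⟨b1, b2⟩
    · rw [← a1, ← a2, ← b1, ← b2]
    · rw [← a1, ← a2, ← b1, ← b2, Sym2.eq_swap]
    · rw [← a1, ← a2, ← b1, ← b2, Sym2.eq_swap]
    · rw [← a1, ← a2, ← b1, ← b2]
  have hg := good_edges e e' hee
  have hP1' : P ∈ segment ℝ (pt (Pool.Agent.Bondage.s e)) (pt (Pool.Agent.Bondage.t e)) := by
    rcases he with ⟨a1, a2⟩ | ⟨a1, a2⟩
    · rw [a1, a2]
      exact hP1
    · rw [a1, a2, segment_symm]
      exact hP1
  have hP2' : P ∈ segment ℝ (pt (Pool.Agent.Bondage.s e')) (pt (Pool.Agent.Bondage.t e')) := by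
    rcases he' with ⟨a1, a2⟩ | ⟨a1, a2⟩
    · rw [a1, a2]
      exact hP2
    · rw [a1, a2, segment_symm]
      exact hP2
  obtain ⟨w, hw1, hw2, hw3⟩ := meet_of_good _ _ _ _ hg P hP1' hP2'
  refine ⟨w, hw1, ?_, ?_⟩
  · rcases he with ⟨a1, a2⟩ | ⟨a1, a2⟩
    · rw [← a1, ← a2]
      exact hw2
    · rw [← a1, ← a2]
      exact hw2.symm
  · rcases he' with ⟨a1, a2⟩ | ⟨a1, a2⟩
    · rw [← a1, ← a2]
      exact hw3
    · rw [← a1, ← a2]
      exact hw3.symm

theorem three_nbrs : ∀ v : Fin 24,
    (Finset.univ.filter (fun w => Pool.Agent.Bondage.G.Adj v w)).card = 3 := by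
  decide +kernel

theorem drawing : PlaneDrawing Pool.Agent.Bondage.G pt := by
  refine ⟨pt_inj, ?_, meet_edges⟩
  intro u v w huv hw
  by_contra hcon
  push Not at hcon
  have h3 := three_nbrs w
  have hne : (Finset.univ.filter (fun z => Pool.Agent.Bondage.G.Adj w z)).Nonempty := by
    rw [← Finset.card_pos]
    omega
  obtain ⟨z, hz⟩ := hne
  rw [Finset.mem_filter] at hz
  have hwz := hz.2
  have hedge : s(u, v) ≠ s(w, z) := by
    intro h
    rw [Sym2.eq_iff] at h
    rcases h with ⟨h1, -⟩ | ⟨-, h1⟩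
    · exact hcon.1 h1.symm
    · exact hcon.2 h1.symm
  obtain ⟨w', hw'1, hw'2, -⟩ := meet_edges u v w z huv hwz hedge (pt w) hw
    (left_mem_segment ℝ _ _)
  have := pt_inj hw'1
  subst this
  rcases hw'2 with h | h
  · exact hcon.1 h
  · exact hcon.2 h

/-! ### connectedness and the bipartition -/

def par : Fin 24 → Fin 24 :=
  ![0, 9, 10, 11, 7, 4, 7, 19, 0, 8, 9, 8, 3, 0, 22, 23, 14, 15, 21, 13, 2, 13, 0, 1]

theorem par_spec : ∀ v : Fin 24, v ≠ 0 → Pool.Agent.Bondage.G.Adj v (par v) ∧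
    (word (par v)).length < (word v).length := by
  decide +kernel

theorem connected : Pool.Agent.Bondage.G.Connected := by
  have key : ∀ (k : ℕ) (v : Fin 24), (word v).length ≤ k →
      Pool.Agent.Bondage.G.Reachable v 0 := by
    intro k
    induction k with
    | zero =>
      intro v hv
      by_cases h0 : v = 0
      · subst h0
        exact SimpleGraph.Reachable.refl _
      · have := (par_spec v h0).2
        omega
    | succ k ih =>
      intro v hv
      by_cases h0 : v = 0
      · subst h0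
        exact SimpleGraph.Reachable.refl _
      · have h1 := par_spec v h0
        exact h1.1.reachable.trans (ih (par v) (by omega))
  rw [SimpleGraph.connected_iff]
  refine ⟨?_, ⟨0⟩⟩
  intro u v
  exact (key _ u le_rfl).trans (key _ v le_rfl).symm

theorem parity : ∀ u v : Fin 24, Pool.Agent.Bondage.G.Adj u v →
    (decide ((word u).length % 2 = 0) : Bool) ≠ decide ((word v).length % 2 = 0) := by
  decide +kernel

theorem bipartite : Pool.Agent.Bondage.G.Colorable 2 := by
  have c : Pool.Agent.Bondage.G.Coloring Bool :=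
    SimpleGraph.Coloring.mk (fun v => decide ((word v).length % 2 = 0))
      (fun {u v} huv => parity u v huv)
  simpa using c.colorable

/-! ### the domination and the bondage number -/

theorem dom_nonempty {V : Type} [Fintype V] (G : SimpleGraph V) :
    {k : ℕ | ∃ D : Finset V, IsDominating G D ∧ D.card = k}.Nonempty :=
  ⟨_, Finset.univ, fun v hv => absurd (Finset.mem_univ v) hv, rfl⟩

theorem dom_le_of {V : Type} (G : SimpleGraph V) (D : Finset V) (h : IsDominating G D) :
    dominationNumber G ≤ D.card :=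
  Nat.sInf_le ⟨D, h, rfl⟩

theorem le_dom_of {V : Type} [Fintype V] (G : SimpleGraph V) (k : ℕ)
    (h : ∀ D : Finset V, IsDominating G D → k ≤ D.card) : k ≤ dominationNumber G := by
  obtain ⟨D, hD, hk⟩ := Nat.sInf_mem (dom_nonempty G)
  unfold dominationNumber
  rw [← hk]
  exact h D hD

theorem dom_ge (D : Finset (Fin 24)) (hD : IsDominating Pool.Agent.Bondage.G D) : 8 ≤ D.card := by
  apply Pool.Agent.Bondage.dom_ge
  intro v
  by_cases hv : v ∈ D
  · exact Or.inl hv
  · exact Or.inr (hD v hv)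

/-- deleting at most four edges leaves a dominating set of size `8` -/
theorem dom_delete (X : Finset (Sym2 (Fin 24))) (hX : X.card ≤ 4) :
    dominationNumber (Pool.Agent.Bondage.G.deleteEdges (X : Set (Sym2 (Fin 24)))) ≤ 8 := by
  let S' : Finset (Fin 36) := Finset.univ.filter
    (fun e => s(Pool.Agent.Bondage.s e, Pool.Agent.Bondage.t e) ∈ X)
  have hS' : S'.card ≤ 4 := by
    have h1 : S'.card ≤ X.card := by
      apply Finset.card_le_card_of_injOn
        (fun e => s(Pool.Agent.Bondage.s e, Pool.Agent.Bondage.t e))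
      · intro e he
        exact (Finset.mem_filter.mp he).2
      · have hinj : ∀ e e' : Fin 36, s(Pool.Agent.Bondage.s e, Pool.Agent.Bondage.t e) =
            s(Pool.Agent.Bondage.s e', Pool.Agent.Bondage.t e') → e = e' := by
          decide +kernel
        intro e _ e' _ h
        exact hinj e e' h
    omega
  obtain ⟨D, hD8, hD⟩ := Pool.Agent.Bondage.exists_dom S' hS'
  rw [← hD8]
  apply dom_le_of
  intro v hv
  rcases hD v with h | ⟨e, he, h⟩
  · exact absurd h hv
  · have heS : s(Pool.Agent.Bondage.s e, Pool.Agent.Bondage.t e) ∉ X := by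
      intro hmem
      exact he (Finset.mem_filter.mpr ⟨Finset.mem_univ _, hmem⟩)
    rcases h with ⟨h1, h2⟩ | ⟨h1, h2⟩
    · refine ⟨_, h2, ?_⟩
      rw [SimpleGraph.deleteEdges_adj]
      refine ⟨by rw [← h1]; exact (Pool.Agent.Bondage.edge_adj e).symm, ?_⟩
      rw [← h1, Sym2.eq_swap]
      exact heS
    · refine ⟨_, h2, ?_⟩
      rw [SimpleGraph.deleteEdges_adj]
      refine ⟨by rw [← h1]; exact Pool.Agent.Bondage.edge_adj e, ?_⟩
      rw [← h1]
      exact heS

theorem dom_eq : dominationNumber Pool.Agent.Bondage.G = 8 := by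
  apply le_antisymm
  · have h := dom_delete ∅ (by simp)
    have h2 : Pool.Agent.Bondage.G.deleteEdges ((∅ : Finset (Sym2 (Fin 24))) : Set _) =
        Pool.Agent.Bondage.G := by simp
    rw [h2] at h
    exact h
  · exact le_dom_of _ _ dom_ge

/-- the five edges at the adjacent vertices `0` and `8` -/
def X5 : Finset (Sym2 (Fin 24)) := {s(0, 8), s(0, 13), s(0, 22), s(8, 9), s(8, 11)}

theorem X5_sub : (X5 : Set (Sym2 (Fin 24))) ⊆ Pool.Agent.Bondage.G.edgeSet := by
  have h : ∀ e ∈ X5, e ∈ Pool.Agent.Bondage.G.edgeFinset := by decide +kernel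
  intro e he
  exact SimpleGraph.mem_edgeFinset.mp (h e he)

theorem X5_card : X5.card = 5 := by decide +kernel

theorem X5_adj : ∀ u v : Fin 24, Pool.Agent.Bondage.G.Adj u v → (v = 0 ∨ v = 8) →
    s(u, v) ∈ X5 := by
  decide +kernel

theorem dom_X5 : 9 ≤ dominationNumber
    (Pool.Agent.Bondage.G.deleteEdges (X5 : Set (Sym2 (Fin 24)))) := by
  apply le_dom_of
  intro D hD
  have hno : ∀ u v : Fin 24, (v = 0 ∨ v = 8) →
      ¬ (Pool.Agent.Bondage.G.deleteEdges (X5 : Set (Sym2 (Fin 24)))).Adj u v := by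
    intro u v hv h
    rw [SimpleGraph.deleteEdges_adj] at h
    exact h.2 (X5_adj u v h.1 hv)
  have h0 : (0 : Fin 24) ∈ D := by
    by_contra hcon
    obtain ⟨u, _, hu⟩ := hD 0 hcon
    exact hno u 0 (Or.inl rfl) hu
  have h8 : (8 : Fin 24) ∈ D := by
    by_contra hcon
    obtain ⟨u, _, hu⟩ := hD 8 hcon
    exact hno u 8 (Or.inr rfl) hu
  have hdom : IsDominating Pool.Agent.Bondage.G (D.erase 8) := by
    intro v hv
    by_cases hv8 : v = 8
    · subst hv8
      exact ⟨0, Finset.mem_erase.mpr ⟨by decide, h0⟩, by decide +kernel⟩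
    · have hvD : v ∉ D := fun h => hv (Finset.mem_erase.mpr ⟨hv8, h⟩)
      obtain ⟨u, hu, huv⟩ := hD v hvD
      have hu8 : u ≠ 8 := by
        rintro rfl
        exact hno v 8 (Or.inr rfl) huv.symm
      rw [SimpleGraph.deleteEdges_adj] at huv
      exact ⟨u, Finset.mem_erase.mpr ⟨hu8, hu⟩, huv.1⟩
  have h1 := dom_ge _ hdom
  rw [Finset.card_erase_of_mem h8] at h1
  have h2 : 0 < D.card := Finset.card_pos.mpr ⟨_, h8⟩
  omega

theorem bondage_eq : bondageNumber Pool.Agent.Bondage.G = 5 := by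
  have h5 : (5 : ℕ) ∈ {k : ℕ | ∃ X : Finset (Sym2 (Fin 24)),
      (X : Set (Sym2 (Fin 24))) ⊆ Pool.Agent.Bondage.G.edgeSet ∧ X.card = k ∧
      dominationNumber Pool.Agent.Bondage.G <
        dominationNumber (Pool.Agent.Bondage.G.deleteEdges (X : Set (Sym2 (Fin 24))))} := by
    refine ⟨X5, X5_sub, X5_card, ?_⟩
    rw [dom_eq]
    exact lt_of_lt_of_le (by norm_num) dom_X5
  apply le_antisymm
  · exact Nat.sInf_le h5
  · obtain ⟨X, _, hX2, hX3⟩ := Nat.sInf_mem ⟨5, h5⟩
    unfold bondageNumber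
    rw [← hX2]
    by_contra hcon
    have h1 := dom_delete X (by omega)
    rw [dom_eq] at hX3
    omega

/-- There is a graph isomorphic to the truncated octahedron, connected, bipartite and
`3`-regular, with a crossing-free straight-line drawing in the plane, whose domination number is
`8` and whose bondage number is `5 = Δ + 2`. -/
theorem result : ∃ G : SimpleGraph (Fin 24),
    Nonempty (G ≃g truncatedOctahedron) ∧ (∃ p : Fin 24 → ℝ × ℝ, PlaneDrawing G p) ∧
    G.Connected ∧ G.Colorable 2 ∧ (∀ v, (G.neighborSet v).ncard = 3) ∧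
    dominationNumber G = 8 ∧ bondageNumber G = 5 := by
  refine ⟨Pool.Agent.Bondage.G, ⟨phiIso⟩, ⟨pt, drawing⟩, connected, bipartite, ?_, dom_eq,
    bondage_eq⟩
  intro v
  have h : Pool.Agent.Bondage.G.neighborSet v =
      ((Finset.univ.filter (fun w => Pool.Agent.Bondage.G.Adj v w) : Finset (Fin 24)) :
        Set (Fin 24)) := by
    ext w
    simp
  rw [h, Set.ncard_coe_finset]
  exact three_nbrs v

end Pool.Agent.Results.MP_4d2e6e_co.TruncatedOctahedron
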